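import Pool.Agent.H4ES.Defs

/-! The coned complex: metric, angles, counts. -/

namespace Pool.Agent.H4ES

open Real

theorem ei_ne_ej (m : Fin 6) : ei m ≠ ej m := by revert m; decide

/-- Squared edge lengths of the pyramid with apex `a`. -/
noncomputable def qp (t : ℝ) (a b c : Fin 4) : ℝ := if b = a ∨ c = a then t else 1

theorem th_congr {q q' : Fin 4 → Fin 4 → ℝ} (h : ∀ b c, b ≠ c → q b c = q' b c) (m : Fin 6) :
    th q m = th q' m := by
  have h01 := h 0 1 (by decide)
  have h02 := h 0 2 (by decide)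
  have h03 := h 0 3 (by decide)
  have h10 := h 1 0 (by decide)
  have h12 := h 1 2 (by decide)
  have h13 := h 1 3 (by decide)
  have h20 := h 2 0 (by decide)
  have h21 := h 2 1 (by decide)
  have h23 := h 2 3 (by decide)
  have h30 := h 3 0 (by decide)
  have h31 := h 3 1 (by decide)
  have h32 := h 3 2 (by decide)
  fin_cases m <;>
    simp [th, nu, ar, ei, ej, ek, el, h01, h02, h03, h10, h12, h13, h20, h21, h23, h30, h31, h32]

/-- The angle at a base edge. -/
noncomputable def al (t : ℝ) : ℝ := arccos (1 / √(3 * (4 * t - 1)))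

/-- The angle at a lateral edge. -/
noncomputable def be (t : ℝ) : ℝ := arccos ((2 * t - 1) / (4 * t - 1))

theorem th_of {q : Fin 4 → Fin 4 → ℝ} {m : Fin 6} {x y : ℝ}
    (h1 : nu q (ei m) (ej m) (ek m) (el m) = x)
    (h2 : ar q (ei m) (ej m) (ek m) * ar q (ei m) (ej m) (el m) = y) :
    th q m = arccos (x / √y) := by
  unfold th
  rw [h1, h2]

theorem th_qp {t : ℝ} (ht : 1 / 3 < t) (a : Fin 4) (m : Fin 6) :
    th (qp t a) m = if a = ei m ∨ a = ej m then be t else al t := by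
  have h4 : (0 : ℝ) < 4 * t - 1 := by linarith
  have hs : √((4 * t - 1) ^ 2) = 4 * t - 1 := Real.sqrt_sq h4.le
  split_ifs with h
  · have : th (qp t a) m = arccos ((2 * t - 1) / √((4 * t - 1) ^ 2)) := by
      apply th_of
      · revert h
        fin_cases a <;> fin_cases m <;> simp [nu, ei, ej, ek, el, qp] <;> ring_nf
      · revert h
        fin_cases a <;> fin_cases m <;> simp [ar, ei, ej, ek, el, qp] <;> ring_nf
    rw [this, hs]
    rfl
  · have : th (qp t a) m = arccos (1 / √(3 * (4 * t - 1))) := by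
      apply th_of
      · revert h
        fin_cases a <;> fin_cases m <;> simp [nu, ei, ej, ek, el, qp] <;> ring_nf
      · revert h
        fin_cases a <;> fin_cases m <;> simp [ar, ei, ej, ek, el, qp] <;> ring_nf
    rw [this]
    rfl

variable {V ι : Type} [DecidableEq V] [Fintype ι] [DecidableEq ι]

namespace Cplx

omit [DecidableEq V] [Fintype ι] [DecidableEq ι] in
theorem ed_inj (K : Cplx V ι) (T : ι) : Function.Injective (K.ed T) := by
  intro m m' h
  simp only [ed, Sym2.eq_iff, (K.inj T).eq_iff] at h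
  revert h
  revert m'
  revert m
  decide

theorem sum_deg (K : Cplx V ι) (e : Sym2 V) :
    ∑ T, ∑ m, (if K.ed T m = e then (1 : ℝ) else 0) = K.deg e := by
  unfold deg
  rw [Finset.card_filter]
  push_cast
  refine Finset.sum_congr rfl fun T _ => ?_
  by_cases h : ∃ m, K.ed T m = e
  · obtain ⟨m, hm⟩ := h
    rw [if_pos ⟨m, hm⟩]
    rw [Finset.sum_eq_single m]
    · simp [hm]
    · intro m' _ hne
      rw [if_neg]
      intro h'
      exact hne (K.ed_inj T (h'.trans hm.symm))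
    · simp
  · rw [if_neg h]
    refine Finset.sum_eq_zero fun m _ => ?_
    rw [if_neg]
    exact fun h' => h ⟨m, h'⟩

/-- The metric on the coned complex. -/
noncomputable def zc (t : ℝ) (e : Sym2 (V ⊕ ι)) : ℝ :=
  if ∃ T : ι, (Sum.inr T : V ⊕ ι) ∈ e then t else 1

theorem zc_old (t : ℝ) (x y : V) :
    zc (ι := ι) t s(Sum.inl x, Sum.inl y) = 1 := by
  unfold zc
  rw [if_neg]
  rintro ⟨T, hT⟩
  simp at hT

theorem zc_map (t : ℝ) (e : Sym2 V) : zc (ι := ι) t (e.map Sum.inl) = 1 := by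
  induction e with
  | _ x y => exact zc_old t x y

theorem zc_new (t : ℝ) (T : ι) (y : V ⊕ ι) : zc (V := V) t s(Sum.inr T, y) = t := by
  unfold zc
  rw [if_pos]
  exact ⟨T, by simp⟩

theorem zc_new' (t : ℝ) (T : ι) (y : V ⊕ ι) : zc (V := V) t s(y, Sum.inr T) = t := by
  rw [Sym2.eq_swap]
  exact zc_new t T y

theorem sq_cone (K : Cplx V ι) (t : ℝ) (T : ι) (a b c : Fin 4) (h : b ≠ c) :
    K.cone.sq (zc t) (T, a) b c = qp t a b c := by
  unfold sq qp cone
  dsimp only
  by_cases hb : b = a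
  · rw [if_pos hb, if_pos (Or.inl hb)]
    exact zc_new t T _
  · by_cases hc : c = a
    · rw [if_pos (Or.inr hc), if_pos hc]
      exact zc_new' t T _
    · rw [if_neg hb, if_neg hc, if_neg (by tauto)]
      exact zc_old t _ _

theorem ed_cone_old (K : Cplx V ι) (T : ι) (a : Fin 4) (m : Fin 6) (e : Sym2 V) :
    K.cone.ed (T, a) m = e.map Sum.inl ↔ ¬(a = ei m ∨ a = ej m) ∧ K.ed T m = e := by
  unfold ed cone
  dsimp only
  induction e with
  | _ x y =>
    by_cases h1 : ei m = a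
    · simp [h1, Sym2.eq_iff]
    · by_cases h2 : ej m = a
      · simp [h2, Sym2.eq_iff]
      · simp [h1, h2, Sym2.eq_iff, Ne.symm h1, Ne.symm h2]

theorem ed_cone_new (K : Cplx V ι) (T T' : ι) (a b : Fin 4) (m : Fin 6) :
    K.cone.ed (T', a) m = s(Sum.inr T, Sum.inl (K.v T b)) ↔
      T' = T ∧ ((a = ei m ∧ ej m = b) ∨ (a = ej m ∧ ei m = b)) := by
  unfold ed cone
  dsimp only
  by_cases h1 : ei m = a
  · have h2 : ej m ≠ a := fun h2 => ei_ne_ej m (h1.trans h2.symm)
    simp only [h1, if_true, if_neg h2, Sym2.eq_iff, Sum.inr.injEq, Sum.inl.injEq, reduceCtorEq,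
      false_and, or_false]
    constructor
    · rintro ⟨rfl, h⟩
      exact ⟨rfl, Or.inl ⟨trivial, K.inj _ h⟩⟩
    · rintro ⟨rfl, h | h⟩
      · exact ⟨rfl, by rw [h.2]⟩
      · exact absurd h.1.symm h2
  · by_cases h2 : ej m = a
    · simp only [if_neg h1, h2, if_true, Sym2.eq_iff, Sum.inr.injEq, Sum.inl.injEq, reduceCtorEq,
        false_and, false_or]
      constructor
      · rintro ⟨h, rfl⟩
        exact ⟨rfl, Or.inr ⟨trivial, K.inj _ h⟩⟩
      · rintro ⟨rfl, h | h⟩
        · exact absurd h.1.symm h1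
        · exact ⟨by rw [h.2], rfl⟩
    · simp only [if_neg h1, if_neg h2, Sym2.eq_iff, reduceCtorEq, false_and, and_false, or_self,
        false_iff]
      rintro ⟨_, h | h⟩
      · exact h1 h.1.symm
      · exact h2 h.1.symm

theorem curv_old (K : Cplx V ι) {t : ℝ} (ht : 1 / 3 < t) (e : Sym2 V) :
    K.cone.curv (zc t) (e.map Sum.inl) = 1 - K.deg e * (2 * al t) / (2 * π) := by
  unfold curv
  congr 1
  rw [Fintype.sum_prod_type, ← sum_deg, Finset.sum_mul, Finset.sum_div]
  refine Finset.sum_congr rfl fun T _ => ?_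
  rw [Finset.sum_comm, Finset.sum_mul, Finset.sum_div]
  refine Finset.sum_congr rfl fun m _ => ?_
  have h1 : ∀ a : Fin 4, (if K.cone.ed (T, a) m = e.map Sum.inl then
      th (K.cone.sq (zc t) (T, a)) m / (2 * π) else 0) =
      if ¬(a = ei m ∨ a = ej m) ∧ K.ed T m = e then al t / (2 * π) else 0 := by
    intro a
    by_cases h : ¬(a = ei m ∨ a = ej m) ∧ K.ed T m = e
    · rw [if_pos h, if_pos ((ed_cone_old K T a m e).2 h),
        th_congr (fun b c hbc => sq_cone K t T a b c hbc) m, th_qp ht, if_neg h.1]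
    · rw [if_neg h, if_neg (fun h' => h ((ed_cone_old K T a m e).1 h'))]
  rw [Finset.sum_congr rfl fun a _ => h1 a]
  by_cases h : K.ed T m = e
  · simp only [h, and_true, if_true]
    fin_cases m <;> simp [ei, ej, Fin.sum_univ_succ] <;> ring
  · simp [h]

theorem curv_new (K : Cplx V ι) {t : ℝ} (ht : 1 / 3 < t) (T : ι) (b : Fin 4) :
    K.cone.curv (zc t) s(Sum.inr T, Sum.inl (K.v T b)) = 1 - 3 * be t / (2 * π) := by
  unfold curv
  congr 1
  rw [Fintype.sum_prod_type, Finset.sum_eq_single T]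
  · have h1 : ∀ (a : Fin 4) (m : Fin 6), (if K.cone.ed (T, a) m =
        s(Sum.inr T, Sum.inl (K.v T b)) then
        th (K.cone.sq (zc t) (T, a)) m / (2 * π) else 0) =
        if ((a = ei m ∧ ej m = b) ∨ (a = ej m ∧ ei m = b)) then be t / (2 * π) else 0 := by
      intro a m
      by_cases h : ((a = ei m ∧ ej m = b) ∨ (a = ej m ∧ ei m = b))
      · rw [if_pos h, if_pos ((ed_cone_new K T T a b m).2 ⟨rfl, h⟩),
          th_congr (fun b c hbc => sq_cone K t T a b c hbc) m, th_qp ht, if_pos (by tauto)]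
      · rw [if_neg h, if_neg (fun h' => h ((ed_cone_new K T T a b m).1 h').2)]
    rw [Finset.sum_congr rfl fun a _ => Finset.sum_congr rfl fun m _ => h1 a m]
    fin_cases b <;> simp [ei, ej, Fin.sum_univ_succ] <;> ring
  · intro T' _ hne
    refine Finset.sum_eq_zero fun a _ => Finset.sum_eq_zero fun m _ => ?_
    rw [if_neg]
    intro h
    exact hne ((ed_cone_new K T T' a b m).1 h).1
  · simp

theorem edges_cone (K : Cplx V ι) (e' : Sym2 (V ⊕ ι)) (h : e' ∈ K.cone.edges) :
    (∃ e ∈ K.edges, e' = e.map Sum.inl) ∨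
      ∃ (T : ι) (b : Fin 4), e' = s(Sum.inr T, Sum.inl (K.v T b)) := by
  obtain ⟨⟨⟨T, a⟩, m⟩, _, rfl⟩ := Finset.mem_image.1 h
  dsimp only
  by_cases h1 : a = ei m
  · exact Or.inr ⟨T, ej m, (ed_cone_new K T T a _ m).2 ⟨rfl, Or.inl ⟨h1, rfl⟩⟩⟩
  · by_cases h2 : a = ej m
    · exact Or.inr ⟨T, ei m, (ed_cone_new K T T a _ m).2 ⟨rfl, Or.inr ⟨h2, rfl⟩⟩⟩
    · exact Or.inl ⟨K.ed T m, Finset.mem_image.2 ⟨(T, m), Finset.mem_univ _, rfl⟩,
        (ed_cone_old K T a m _).2 ⟨by tauto, rfl⟩⟩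

end Cplx

end Pool.Agent.H4ES
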