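import Mathlib

/-!
Einstein metrics (in the sense of Regge calculus) on 3-dimensional simplicial complexes.
-/

namespace Pool.Agent.H4ES

open Real

/-- A finite pure 3-dimensional simplicial complex on the vertex set `V`, given by its 3-simplices:
`T : ι` has the four distinct vertices `v T 0, .., v T 3`, and different 3-simplices have different
vertex sets. -/
structure Cplx (V ι : Type) where
  v : ι → Fin 4 → V
  inj : ∀ T, Function.Injective (v T)
  dist : ∀ T T', Set.range (v T) = Set.range (v T') → T = T'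

/-- The six edges `{i, j}` of the simplex on `0, 1, 2, 3`, each with the opposite edge `{k, l}`. -/
def ei : Fin 6 → Fin 4 := ![0, 0, 0, 1, 1, 2]
def ej : Fin 6 → Fin 4 := ![1, 2, 3, 2, 3, 3]
def ek : Fin 6 → Fin 4 := ![2, 1, 1, 0, 0, 0]
def el : Fin 6 → Fin 4 := ![3, 3, 2, 3, 2, 1]

/-- `16` times the squared area of the triangle `i j k` with squared edge lengths `q`. -/
noncomputable def ar (q : Fin 4 → Fin 4 → ℝ) (i j k : Fin 4) : ℝ :=
  2 * (q i j * q i k + q i j * q j k + q i k * q j k) - q i j ^ 2 - q i k ^ 2 - q j k ^ 2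

/-- The numerator of the cosine of the dihedral angle at the edge `i j` of `i j k l`. -/
noncomputable def nu (q : Fin 4 → Fin 4 → ℝ) (i j k l : Fin 4) : ℝ :=
  q i j * (q i k + q i l + q j k + q j l - 2 * q k l - q i j)
    - (q i k - q j k) * (q i l - q j l)

/-- The interior dihedral angle (in radians) at the edge `m` of the Euclidean tetrahedron with
squared edge lengths `q`. -/
noncomputable def th (q : Fin 4 → Fin 4 → ℝ) (m : Fin 6) : ℝ :=
  arccos (nu q (ei m) (ej m) (ek m) (el m) /
    √(ar q (ei m) (ej m) (ek m) * ar q (ei m) (ej m) (el m)))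

variable {V ι : Type} [DecidableEq V] [Fintype ι] [DecidableEq ι]

namespace Cplx

/-- The edge number `m` of the 3-simplex `T`. -/
def ed (K : Cplx V ι) (T : ι) (m : Fin 6) : Sym2 V := s(K.v T (ei m), K.v T (ej m))

/-- The set of edges. -/
def edges (K : Cplx V ι) : Finset (Sym2 V) :=
  Finset.univ.image fun p : ι × Fin 6 => K.ed p.1 p.2

/-- The squared edge lengths of the 3-simplex `T`. -/
def sq (K : Cplx V ι) (z : Sym2 V → ℝ) (T : ι) (a b : Fin 4) : ℝ := z s(K.v T a, K.v T b)

/-- The curvature at the edge `e`: one minus the sum of the dihedral angles of the 3-simplices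
containing `e`, in units of `2 π`. -/
noncomputable def curv (K : Cplx V ι) (z : Sym2 V → ℝ) (e : Sym2 V) : ℝ :=
  1 - ∑ T, ∑ m, if K.ed T m = e then th (K.sq z T) m / (2 * π) else 0

/-- The total scalar curvature. -/
noncomputable def totalCurv (K : Cplx V ι) (z : Sym2 V → ℝ) : ℝ :=
  ∑ e ∈ K.edges, K.curv z e * √(z e)

/-- `z` is a metric: every 3-simplex is realised by a nondegenerate Euclidean tetrahedron. -/
def IsMetric (K : Cplx V ι) (z : Sym2 V → ℝ) : Prop :=
  ∀ T, ∃ p : Fin 4 → EuclideanSpace ℝ (Fin 3), AffineIndependent ℝ p ∧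
    ∀ a b, a ≠ b → Dist.dist (p a) (p b) ^ 2 = K.sq z T a b

/-- `z` is an Einstein metric (of the first kind): the gradient of the total scalar curvature is
`c` times `z`. -/
def IsEinstein (K : Cplx V ι) (z : Sym2 V → ℝ) : Prop :=
  K.IsMetric z ∧ ∃ c : ℝ, ∀ e ∈ K.edges,
    HasDerivAt (fun x => K.totalCurv (Function.update z e x)) (c * z e) (z e)

/-- The number of 3-simplices containing the edge `e`. -/
def deg (K : Cplx V ι) (e : Sym2 V) : ℕ :=
  (Finset.univ.filter fun T => ∃ m, K.ed T m = e).card

/-- The subdivision of `K` in which every 3-simplex `T` is coned from a new interior vertex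
`inr T`; its 3-simplices are `(T, a)`: the facet of `T` opposite `v T a`, and `inr T`. -/
def cone (K : Cplx V ι) : Cplx (V ⊕ ι) (ι × Fin 4) where
  v := fun p b => if b = p.2 then Sum.inr p.1 else Sum.inl (K.v p.1 b)
  inj := by
    rintro ⟨T, a⟩ b c h
    dsimp only at h
    split_ifs at h with h1 h2 h2
    · rw [h1, h2]
    · exact K.inj T (Sum.inl_injective h)
  dist := by
    rintro ⟨T, a⟩ ⟨T', a'⟩ h
    have h1 : (Sum.inr T : V ⊕ ι) ∈ Set.range
        (fun b => if b = a' then (Sum.inr T' : V ⊕ ι) else Sum.inl (K.v T' b)) := by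
      rw [← h]
      exact ⟨a, by simp⟩
    obtain ⟨b, hb⟩ := h1
    have hT : T' = T := by
      dsimp only at hb
      split_ifs at hb
      exact Sum.inr_injective hb
    subst hT
    have : a = a' := by
      by_contra hne
      have h2 : (Sum.inl (K.v T' a') : V ⊕ ι) ∈ Set.range
          (fun b => if b = a then (Sum.inr T' : V ⊕ ι) else Sum.inl (K.v T' b)) :=
        ⟨a', by simp [Ne.symm hne]⟩
      rw [h] at h2
      obtain ⟨c, hc⟩ := h2
      dsimp only at hc
      split_ifs at hc with h3
      exact h3 (K.inj T' (Sum.inl_injective hc))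
    rw [this]

end Cplx

end Pool.Agent.H4ES
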