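import Mathlib

/-!
The intermediate value theorem for the Einstein equation on the coned complex
(the continuity part is due to helper30).
-/

namespace Pool.Agent.H4ES

theorem exists_t {d : ℕ} (hd : 1 ≤ d) : ∃ t : ℝ, 1 / 3 < t ∧ t < 3 / 5 ∧
    1 / (2 * Real.sqrt t) * (1 - 3 * Real.arccos ((2 * t - 1) / (4 * t - 1)) / (2 * Real.pi)) =
      t * (1 / 2) * (1 - d * Real.arccos (1 / Real.sqrt (3 * (4 * t - 1))) / Real.pi) := by
  have hpi := Real.pi_pos
  let f : ℝ → ℝ := fun t =>
    1 / (2 * Real.sqrt t) * (1 - 3 * Real.arccos ((2 * t - 1) / (4 * t - 1)) / (2 * Real.pi)) -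
      t * (1 / 2) * (1 - d * Real.arccos (1 / Real.sqrt (3 * (4 * t - 1))) / Real.pi)
  have hf : ContinuousOn f (Set.Icc (1 / 3) (3 / 5)) := by
    have h1 : ContinuousOn (fun t : ℝ => 1 / (2 * Real.sqrt t)) (Set.Icc (1 / 3) (3 / 5)) := by
      apply ContinuousOn.div continuousOn_const (by fun_prop)
      intro t ht
      have : 0 < Real.sqrt t := Real.sqrt_pos.2 (by linarith [ht.1])
      positivity
    have h2 : ContinuousOn (fun t : ℝ => (2 * t - 1) / (4 * t - 1)) (Set.Icc (1 / 3) (3 / 5)) := by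
      apply ContinuousOn.div (by fun_prop) (by fun_prop)
      intro t ht h
      linarith [ht.1]
    have h3 : ContinuousOn (fun t : ℝ => 1 / Real.sqrt (3 * (4 * t - 1)))
        (Set.Icc (1 / 3) (3 / 5)) := by
      apply ContinuousOn.div continuousOn_const (by fun_prop)
      intro t ht
      have : 0 < Real.sqrt (3 * (4 * t - 1)) := Real.sqrt_pos.2 (by linarith [ht.1])
      exact this.ne'
    have h4 := Real.continuous_arccos.comp_continuousOn h2
    have h5 := Real.continuous_arccos.comp_continuousOn h3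
    simp only [Function.comp_def] at h4 h5
    exact (h1.mul (continuousOn_const.sub ((continuousOn_const.mul h4).div_const _))).sub
      ((continuousOn_id.mul continuousOn_const).mul
        (continuousOn_const.sub ((continuousOn_const.mul h5).div_const _)))
  have ha : f (1 / 3) < 0 := by
    have e1 : (2 * (1 / 3 : ℝ) - 1) / (4 * (1 / 3) - 1) = -1 := by norm_num
    have e2 : (1 : ℝ) / Real.sqrt (3 * (4 * (1 / 3) - 1)) = 1 := by
      rw [show (3 : ℝ) * (4 * (1 / 3) - 1) = 1 by norm_num]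
      simp
    show 1 / (2 * Real.sqrt (1 / 3)) * (1 - 3 * Real.arccos ((2 * (1 / 3) - 1) /
      (4 * (1 / 3) - 1)) / (2 * Real.pi)) - 1 / 3 * (1 / 2) * (1 - d *
      Real.arccos (1 / Real.sqrt (3 * (4 * (1 / 3) - 1))) / Real.pi) < 0
    rw [e1, e2, Real.arccos_neg_one, Real.arccos_one]
    have h1 : (1 : ℝ) - 3 * Real.pi / (2 * Real.pi) = -(1 / 2) := by
      field_simp
      norm_num
    rw [h1]
    have h2 : 0 < 1 / (2 * Real.sqrt (1 / 3 : ℝ)) := by positivity
    have h3 : (1 : ℝ) - d * 0 / Real.pi = 1 := by simp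
    rw [h3]
    nlinarith
  have hb : 0 < f (3 / 5) := by
    have e1 : (2 * (3 / 5 : ℝ) - 1) / (4 * (3 / 5) - 1) = 1 / 7 := by norm_num
    have e2 : (3 : ℝ) * (4 * (3 / 5) - 1) = 21 / 5 := by norm_num
    show 0 < 1 / (2 * Real.sqrt (3 / 5)) * (1 - 3 * Real.arccos ((2 * (3 / 5) - 1) /
      (4 * (3 / 5) - 1)) / (2 * Real.pi)) - 3 / 5 * (1 / 2) * (1 - d *
      Real.arccos (1 / Real.sqrt (3 * (4 * (3 / 5) - 1))) / Real.pi)
    rw [e1, e2]
    -- the lateral angle is at most pi/2 - 1/7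
    have hbe : Real.arccos (1 / 7) ≤ Real.pi / 2 - 1 / 7 := by
      have h1 : (1 : ℝ) / 7 ≤ Real.arcsin (1 / 7) := by
        have h2 : Real.sin (1 / 7) ≤ 1 / 7 := Real.sin_le (by norm_num)
        have h3 := Real.monotone_arcsin h2
        rwa [Real.arcsin_sin (by linarith) (by linarith [Real.pi_gt_three])] at h3
      have h4 : Real.arccos (1 / 7) = Real.pi / 2 - Real.arcsin (1 / 7) := rfl
      rw [h4]
      linarith
    -- the base angle is at least pi/3
    have hal : Real.pi / 3 ≤ Real.arccos (1 / Real.sqrt (21 / 5)) := by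
      have h1 : (2 : ℝ) < Real.sqrt (21 / 5) := by
        apply Real.lt_sqrt_of_sq_lt
        norm_num
      have h2 : 1 / Real.sqrt (21 / 5) ≤ 1 / 2 :=
        one_div_le_one_div_of_le (by norm_num) h1.le
      have h3 : Real.arccos (1 / 2) = Real.pi / 3 := by
        rw [← Real.cos_pi_div_three, Real.arccos_cos (by linarith) (by linarith)]
      rw [← h3]
      exact Real.antitone_arccos h2
    have hs : Real.sqrt (3 / 5) < 31 / 40 := by
      rw [Real.sqrt_lt' (by norm_num)]
      norm_num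
    have hs0 : 0 < Real.sqrt (3 / 5 : ℝ) := Real.sqrt_pos.2 (by norm_num)
    have hL1 : (20 : ℝ) / 31 < 1 / (2 * Real.sqrt (3 / 5)) := by
      rw [lt_div_iff₀ (by positivity)]
      linarith
    have hL2 : (159 : ℝ) / 500 ≤ 1 - 3 * Real.arccos (1 / 7) / (2 * Real.pi) := by
      have h5 : 3 * Real.arccos (1 / 7) / (2 * Real.pi) ≤ 341 / 500 := by
        rw [div_le_iff₀ (by positivity)]
        have := Real.pi_lt_d2
        linarith
      linarith
    have hL : (20 : ℝ) / 31 * (159 / 500) ≤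
        1 / (2 * Real.sqrt (3 / 5)) * (1 - 3 * Real.arccos (1 / 7) / (2 * Real.pi)) :=
      mul_le_mul hL1.le hL2 (by norm_num) (by positivity)
    have hd1 : (1 : ℝ) ≤ d := by exact_mod_cast hd
    have hR : 1 / 3 ≤ d * Real.arccos (1 / Real.sqrt (21 / 5)) / Real.pi := by
      rw [le_div_iff₀ hpi]
      nlinarith
    nlinarith
  obtain ⟨t, ht, h⟩ := intermediate_value_Ioo (by norm_num) hf (show (0 : ℝ) ∈
    Set.Ioo (f (1 / 3)) (f (3 / 5)) from ⟨ha, hb⟩)
  exact ⟨t, ht.1, ht.2, sub_eq_zero.1 h⟩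

end Pool.Agent.H4ES
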