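import Pool.Agent.H4ES.Regge
import Pool.Agent.H4ES.Cone
import Pool.Agent.H23ES.Schlaefli
import Pool.Agent.H30ES.Pts
import Pool.Agent.H4ES.Ivt

/-! Einstein metrics on coned complexes. -/

namespace Pool.Agent.H4ES

open Real Pool.Agent.H23ES

theorem ar_congr {q q' : Fin 4 → Fin 4 → ℝ} (h : ∀ b c, b ≠ c → q b c = q' b c) {i j k : Fin 4}
    (h1 : i ≠ j) (h2 : i ≠ k) (h3 : j ≠ k) : ar q i j k = ar q' i j k := by
  unfold ar
  rw [h i j h1, h i k h2, h j k h3]

theorem ar_qp_pos {t : ℝ} (ht : 1 / 3 < t) (a : Fin 4) (i j k : Fin 4) (h1 : i ≠ j) (h2 : i ≠ k)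
    (h3 : j ≠ k) : 0 < ar (qp t a) i j k := by
  revert h1 h2 h3
  unfold ar qp
  by_cases hi : i = a
  · by_cases hj : j = a
    · intro h1
      exact absurd (hi.trans hj.symm) h1
    · by_cases hk : k = a
      · intro _ h2
        exact absurd (hi.trans hk.symm) h2
      · intro _ _ _
        simp only [hi, hj, hk, true_or, or_false, false_or, if_true, if_false]
        nlinarith
  · by_cases hj : j = a
    · by_cases hk : k = a
      · intro _ _ h3
        exact absurd (hj.trans hk.symm) h3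
      · intro _ _ _
        simp only [hi, hj, hk, or_true, true_or, or_false, false_or, if_true, if_false]
        nlinarith
    · by_cases hk : k = a
      · intro _ _ _
        simp only [hi, hj, hk, or_true, or_false, if_true, if_false]
        nlinarith
      · intro _ _ _
        simp only [hi, hj, hk, or_false, if_false]
        norm_num

theorem gr_congr {q q' : Fin 4 → Fin 4 → ℝ} (h : ∀ b c, b ≠ c → q b c = q' b c) :
    gr q = gr q' := by
  unfold gr
  rw [h 0 1 (by decide), h 0 2 (by decide), h 0 3 (by decide), h 1 2 (by decide),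
    h 1 3 (by decide), h 2 3 (by decide)]

theorem gr_qp_pos {t : ℝ} (ht : 1 / 3 < t) (a : Fin 4) : 0 < gr (qp t a) := by
  have : gr (qp t a) = 4 * (3 * t - 1) := by
    fin_cases a <;> simp [gr, qp] <;> ring
  rw [this]
  linarith

variable {V ι : Type} [DecidableEq V] [Fintype ι] [DecidableEq ι]

namespace Cplx

theorem tet_deriv (K : Cplx V ι) (z : Sym2 V → ℝ) (e : Sym2 V) (T : ι)
    (hpos : ∀ a b, a ≠ b → 0 < K.sq z T a b)
    (har : ∀ i j k, i ≠ j → i ≠ k → j ≠ k → 0 < ar (K.sq z T) i j k)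
    (hG : 0 < gr (K.sq z T)) :
    HasDerivAt (fun x => ∑ m, √(K.sq (Function.update z e x) T (ei m) (ej m)) *
        th (K.sq (Function.update z e x) T) m)
      (∑ m, if K.ed T m = e then th (K.sq z T) m / (2 * √(z e)) else 0) (z e) := by
  have hz : K.sq (Function.update z e (z e)) T = K.sq z T := by rw [Function.update_eq_self]
  have h := schlaefli (q := fun x => K.sq (Function.update z e x) T)
    (q' := fun a b => if s(K.v T a, K.v T b) = e then 1 else 0) (x0 := z e)
    (fun a b => by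
      unfold sq
      by_cases h : s(K.v T a, K.v T b) = e
      · simp only [h, if_true, Function.update_self]
        exact hasDerivAt_id _
      · simp only [if_neg h, Function.update_of_ne h]
        exact hasDerivAt_const _ _)
    (fun x a b => by
      unfold sq
      rw [Sym2.eq_swap])
    (by rw [hz]; exact hpos) (by rw [hz]; exact har) (by rw [hz]; exact hG)
  refine h.congr_deriv (Finset.sum_congr rfl fun m _ => ?_)
  rw [hz]
  by_cases hm : K.ed T m = e
  · have hm' : s(K.v T (ei m), K.v T (ej m)) = e := hm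
    have hq : K.sq z T (ei m) (ej m) = z e := by
      unfold sq
      rw [hm']
    rw [if_pos hm, if_pos hm', hq, one_mul]
  · have hm' : ¬ s(K.v T (ei m), K.v T (ej m)) = e := hm
    rw [if_neg hm, if_neg hm']
    simp

theorem einstein_cone (K : Cplx V ι) {d : ℕ} (hK : ∀ e ∈ K.edges, K.deg e = d) :
    ∃ t : ℝ, 1 / 3 < t ∧ t < 3 / 5 ∧ K.cone.IsEinstein (zc t) := by
  rcases isEmpty_or_nonempty ι with hι | ⟨⟨T0⟩⟩
  · refine ⟨1 / 2, by norm_num, by norm_num, fun p => isEmptyElim p.1, 0, fun e he => ?_⟩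
    obtain ⟨⟨p, m⟩, _, _⟩ := Finset.mem_image.1 he
    exact isEmptyElim p.1
  have hd : 1 ≤ d := by
    rw [← hK (K.ed T0 0) (K.ed_mem T0 0)]
    exact Finset.card_pos.2 ⟨T0, by simp⟩
  obtain ⟨t, ht, ht1, hg⟩ := exists_t hd
  refine ⟨t, ht, ht1, ?_, 1 / 2 * (1 - d * al t / π), ?_⟩
  · rintro ⟨T, a⟩
    obtain ⟨p, hp1, hp2⟩ := Pool.Agent.H30ES.pts ht a
    refine ⟨p, hp1, fun b c hbc => ?_⟩
    rw [hp2 b c hbc, sq_cone K t T a b c hbc]
    rfl
  · intro e he
    have ht0 : 0 < t := by linarith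
    have hz : 0 < zc t e := by
      unfold zc
      split_ifs
      · exact ht0
      · exact one_pos
    have h := hasDeriv_total K.cone (zc t) e he hz fun ⟨T, a⟩ =>
      tet_deriv K.cone (zc t) e (T, a)
        (fun b c hbc => by
          rw [sq_cone K t T a b c hbc]
          unfold qp
          split_ifs
          · exact ht0
          · exact one_pos)
        (fun i j k h1 h2 h3 => by
          rw [ar_congr (fun b c hbc => sq_cone K t T a b c hbc) h1 h2 h3]
          exact ar_qp_pos ht a i j k h1 h2 h3)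
        (by
          rw [gr_congr (fun b c hbc => sq_cone K t T a b c hbc)]
          exact gr_qp_pos ht a)
    refine h.congr_deriv ?_
    rcases edges_cone K e he with ⟨e0, he0, rfl⟩ | ⟨T, b, rfl⟩
    · rw [curv_old K ht, zc_map, hK e0 he0, Real.sqrt_one]
      have := Real.pi_pos
      field_simp
    · rw [curv_new K ht, zc_new]
      have h2 : 1 / (2 * √t) * (1 - 3 * be t / (2 * π)) = t * (1 / 2) * (1 - d * al t / π) := hg
      calc (1 - 3 * be t / (2 * π)) / (2 * √t) = 1 / (2 * √t) * (1 - 3 * be t / (2 * π)) := by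
            ring
        _ = _ := by
            rw [h2]
            ring

theorem sq_one (K : Cplx V ι) (T : ι) (b c : Fin 4) (_ : b ≠ c) :
    K.sq (fun _ => (1 : ℝ)) T b c = qp 1 0 b c := by
  unfold sq qp
  split_ifs <;> rfl

theorem curv_one (K : Cplx V ι) (e : Sym2 V) :
    K.curv (fun _ => (1 : ℝ)) e = 1 - K.deg e * al 1 / (2 * π) := by
  have ht : (1 : ℝ) / 3 < 1 := by norm_num
  unfold curv
  congr 1
  rw [← sum_deg, Finset.sum_mul, Finset.sum_div]
  refine Finset.sum_congr rfl fun T _ => ?_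
  rw [Finset.sum_mul, Finset.sum_div]
  refine Finset.sum_congr rfl fun m _ => ?_
  have hth : th (K.sq (fun _ => (1 : ℝ)) T) m = al 1 := by
    rw [th_congr (K.sq_one T) m, th_qp ht]
    split_ifs
    · unfold be al
      norm_num
    · rfl
  rw [hth]
  split_ifs <;> simp

theorem deriv_one (K : Cplx V ι) {e : Sym2 V} (he : e ∈ K.edges) :
    HasDerivAt (fun x => K.totalCurv (Function.update (fun _ => (1 : ℝ)) e x))
      ((1 - K.deg e * al 1 / (2 * π)) / 2) 1 := by
  have ht : (1 : ℝ) / 3 < 1 := by norm_num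
  have h := hasDeriv_total K (fun _ => (1 : ℝ)) e he one_pos fun T =>
    tet_deriv K (fun _ => (1 : ℝ)) e T
      (fun b c _ => one_pos)
      (fun i j k h1 h2 h3 => by
        rw [ar_congr (K.sq_one T) h1 h2 h3]
        exact ar_qp_pos ht 0 i j k h1 h2 h3)
      (by
        rw [gr_congr (K.sq_one T)]
        exact gr_qp_pos ht 0)
  refine h.congr_deriv ?_
  rw [curv_one, Real.sqrt_one, mul_one]

theorem einstein_one_iff (K : Cplx V ι) :
    K.IsEinstein (fun _ => 1) ↔ ∀ e ∈ K.edges, ∀ e' ∈ K.edges, K.deg e = K.deg e' := by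
  have ht : (1 : ℝ) / 3 < 1 := by norm_num
  have hpi := Real.pi_pos
  have hal : 0 < al 1 := by
    unfold al
    apply Real.arccos_pos.2
    rw [show (3 : ℝ) * (4 * 1 - 1) = 3 ^ 2 by norm_num, Real.sqrt_sq (by norm_num)]
    norm_num
  constructor
  · rintro ⟨_, c, hc⟩ e he e' he'
    have h1 := (hc e he).unique (K.deriv_one he)
    have h2 := (hc e' he').unique (K.deriv_one he')
    have h3 : (1 - K.deg e * al 1 / (2 * π)) / 2 = (1 - K.deg e' * al 1 / (2 * π)) / 2 := by
      rw [← h1, ← h2]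
    have h4 : (K.deg e : ℝ) * (al 1 / (2 * π)) = K.deg e' * (al 1 / (2 * π)) := by
      rw [← mul_div_assoc, ← mul_div_assoc]
      linarith
    have h5 : al 1 / (2 * π) ≠ 0 := by positivity
    exact_mod_cast mul_right_cancel₀ h5 h4
  · intro h
    refine ⟨?_, ?_⟩
    · intro T
      obtain ⟨p, hp1, hp2⟩ := Pool.Agent.H30ES.pts ht 0
      refine ⟨p, hp1, fun b c hbc => ?_⟩
      rw [hp2 b c hbc, K.sq_one T b c hbc]
      rfl
    · by_cases hne : K.edges.Nonempty
      · obtain ⟨e0, he0⟩ := hne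
        refine ⟨(1 - K.deg e0 * al 1 / (2 * π)) / 2, fun e he => ?_⟩
        rw [mul_one, h e0 he0 e he]
        exact K.deriv_one he
      · exact ⟨0, fun e he => absurd ⟨e, he⟩ hne⟩

theorem cone_of_one (K : Cplx V ι) (h : K.IsEinstein (fun _ => 1)) :
    ∃ t : ℝ, 1 / 3 < t ∧ t < 3 / 5 ∧ K.cone.IsEinstein (zc t) := by
  have hd := K.einstein_one_iff.1 h
  by_cases hne : K.edges.Nonempty
  · obtain ⟨e0, he0⟩ := hne
    exact K.einstein_cone (d := K.deg e0) fun e he => hd e he e0 he0
  · exact K.einstein_cone (d := 0) fun e he => absurd ⟨e, he⟩ hne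

end Cplx

end Pool.Agent.H4ES
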