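import Pool.Agent.H4ES.Defs

/-!
The join of two cycles of lengths `l` and `m`, a triangulated 3-sphere: edge degrees `m`, `l`, `4`
(adapted from a text of helper77).
-/

namespace Pool.Agent.H4ES.JoinC

open Pool.Agent.H4ES

theorem two_ne (m : ℕ) (h : 3 ≤ m) : (2 : ZMod m) ≠ 0 := by
  intro h2
  have h3 : ((2 : ℕ) : ZMod m) = 0 := by exact_mod_cast h2
  rw [ZMod.natCast_eq_zero_iff] at h3
  have := Nat.le_of_dvd (by norm_num) h3
  omega

theorem one_ne (m : ℕ) (h : 3 ≤ m) : (1 : ZMod m) ≠ 0 := by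
  intro h2
  have h3 : ((1 : ℕ) : ZMod m) = 0 := by exact_mod_cast h2
  rw [ZMod.natCast_eq_zero_iff] at h3
  have := Nat.le_of_dvd (by norm_num) h3
  omega

/-- The tetrahedra of the join: `(i, j)` has the vertices `i, i + 1` of the first cycle and
`j, j + 1` of the second cycle. -/
def jv (l m : ℕ) (p : ZMod l × ZMod m) : Fin 4 → ZMod l ⊕ ZMod m :=
  ![Sum.inl p.1, Sum.inl (p.1 + 1), Sum.inr p.2, Sum.inr (p.2 + 1)]

theorem pair_eq {m : ℕ} (h : 3 ≤ m) {i i' : ZMod m} (h1 : i = i' ∨ i = i' + 1)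
    (h2 : i + 1 = i' ∨ i + 1 = i' + 1) : i = i' := by
  rcases h1 with h1 | h1
  · exact h1
  · rcases h2 with h2 | h2
    · exfalso
      apply two_ne m h
      subst h1
      linear_combination h2
    · exact add_right_cancel h2

theorem mem_range_inl {l m : ℕ} {i' x : ZMod l} {j' : ZMod m}
    (h : (Sum.inl x : ZMod l ⊕ ZMod m) ∈ Set.range (jv l m (i', j'))) : x = i' ∨ x = i' + 1 := by
  obtain ⟨a, ha⟩ := h
  fin_cases a <;> simp_all [jv]

theorem mem_range_inr {l m : ℕ} {i' : ZMod l} {j' x : ZMod m}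
    (h : (Sum.inr x : ZMod l ⊕ ZMod m) ∈ Set.range (jv l m (i', j'))) : x = j' ∨ x = j' + 1 := by
  obtain ⟨a, ha⟩ := h
  fin_cases a <;> simp_all [jv]

/-- The join of two cycles of lengths `l, m ≥ 3`. -/
def join (l m : ℕ) [hl : Fact (3 ≤ l)] [h : Fact (3 ≤ m)] :
    Cplx (ZMod l ⊕ ZMod m) (ZMod l × ZMod m) where
  v := jv l m
  inj := by
    rintro ⟨i, j⟩
    have h1 := one_ne m h.out
    have h2 := one_ne l hl.out
    intro a b hab
    fin_cases a <;> fin_cases b <;> simp_all [jv]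
  dist := by
    rintro ⟨i, j⟩ ⟨i', j'⟩ hr
    have a1 : (Sum.inl i : ZMod l ⊕ ZMod m) ∈ Set.range (jv l m (i', j')) := hr ▸ ⟨0, rfl⟩
    have a2 : (Sum.inl (i + 1) : ZMod l ⊕ ZMod m) ∈ Set.range (jv l m (i', j')) := hr ▸ ⟨1, rfl⟩
    have a3 : (Sum.inr j : ZMod l ⊕ ZMod m) ∈ Set.range (jv l m (i', j')) := hr ▸ ⟨2, rfl⟩
    have a4 : (Sum.inr (j + 1) : ZMod l ⊕ ZMod m) ∈ Set.range (jv l m (i', j')) := hr ▸ ⟨3, rfl⟩
    rw [Prod.mk.injEq]
    exact ⟨pair_eq hl.out (mem_range_inl a1) (mem_range_inl a2),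
      pair_eq h.out (mem_range_inr a3) (mem_range_inr a4)⟩

instance (m : ℕ) [h : Fact (3 ≤ m)] : NeZero m := ⟨by have := h.out; omega⟩

variable (l m : ℕ) [hl : Fact (3 ≤ l)] [h : Fact (3 ≤ m)]

theorem ed_zero (p : ZMod l × ZMod m) :
    (join l m).ed p 0 = s(Sum.inl p.1, Sum.inl (p.1 + 1)) := rfl
theorem ed_one (p : ZMod l × ZMod m) :
    (join l m).ed p 1 = s(Sum.inl p.1, Sum.inr p.2) := rfl
theorem ed_two (p : ZMod l × ZMod m) :
    (join l m).ed p 2 = s(Sum.inl p.1, Sum.inr (p.2 + 1)) := rfl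
theorem ed_three (p : ZMod l × ZMod m) :
    (join l m).ed p 3 = s(Sum.inl (p.1 + 1), Sum.inr p.2) := rfl
theorem ed_four (p : ZMod l × ZMod m) :
    (join l m).ed p 4 = s(Sum.inl (p.1 + 1), Sum.inr (p.2 + 1)) := rfl
theorem ed_five (p : ZMod l × ZMod m) :
    (join l m).ed p 5 = s(Sum.inr p.2, Sum.inr (p.2 + 1)) := rfl

theorem deg_inl (i : ZMod l) :
    (join l m).deg s(Sum.inl i, Sum.inl (i + 1)) = m := by
  have key : (Finset.univ.filter fun T : ZMod l × ZMod m =>
      ∃ a, (join l m).ed T a = s(Sum.inl i, Sum.inl (i + 1)))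
      = Finset.univ.map ⟨fun j : ZMod m => (i, j), fun a b hab => by simpa using hab⟩ := by
    ext ⟨i', j'⟩
    simp only [Finset.mem_filter, Finset.mem_univ, true_and, Finset.mem_map,
      Function.Embedding.coeFn_mk, Prod.mk.injEq]
    constructor
    · rintro ⟨a, ha⟩
      refine ⟨j', ?_, rfl⟩
      fin_cases a
      · change s(Sum.inl i', Sum.inl (i' + 1)) = s(Sum.inl i, Sum.inl (i + 1)) at ha
        rw [Sym2.eq_iff] at ha
        simp only [Sum.inl.injEq] at ha
        rcases ha with ⟨h1, -⟩ | ⟨h1, h2⟩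
        · exact h1.symm
        · exact pair_eq hl.out (Or.inr h2.symm) (Or.inl h1.symm)
      all_goals
        exfalso
        revert ha
        simp [ed_one, ed_two, ed_three, ed_four, ed_five]
    · rintro ⟨j, rfl, rfl⟩
      exact ⟨0, rfl⟩
  unfold Cplx.deg
  rw [key, Finset.card_map, Finset.card_univ, ZMod.card]

theorem deg_inr (j : ZMod m) :
    (join l m).deg s(Sum.inr j, Sum.inr (j + 1)) = l := by
  have key : (Finset.univ.filter fun T : ZMod l × ZMod m =>
      ∃ a, (join l m).ed T a = s(Sum.inr j, Sum.inr (j + 1)))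
      = Finset.univ.map ⟨fun i : ZMod l => (i, j), fun a b hab => by simpa using hab⟩ := by
    ext ⟨i', j'⟩
    simp only [Finset.mem_filter, Finset.mem_univ, true_and, Finset.mem_map,
      Function.Embedding.coeFn_mk, Prod.mk.injEq]
    constructor
    · rintro ⟨a, ha⟩
      refine ⟨i', rfl, ?_⟩
      fin_cases a
      rotate_right
      · change s(Sum.inr j', Sum.inr (j' + 1)) = s(Sum.inr j, Sum.inr (j + 1)) at ha
        rw [Sym2.eq_iff] at ha
        simp only [Sum.inr.injEq] at ha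
        rcases ha with ⟨h1, -⟩ | ⟨h1, h2⟩
        · exact h1.symm
        · exact pair_eq h.out (Or.inr h2.symm) (Or.inl h1.symm)
      all_goals
        exfalso
        revert ha
        simp [ed_zero, ed_one, ed_two, ed_three, ed_four]
    · rintro ⟨i, rfl, rfl⟩
      exact ⟨5, rfl⟩
  unfold Cplx.deg
  rw [key, Finset.card_map, Finset.card_univ, ZMod.card]

theorem deg_mixed (i : ZMod l) (j : ZMod m) :
    (join l m).deg s(Sum.inl i, Sum.inr j) = 4 := by
  have key : (Finset.univ.filter fun T : ZMod l × ZMod m =>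
      ∃ a, (join l m).ed T a = s(Sum.inl i, Sum.inr j))
      = {(i, j), (i, j - 1), (i - 1, j), (i - 1, j - 1)} := by
    ext ⟨i', j'⟩
    simp only [Finset.mem_filter, Finset.mem_univ, true_and, Finset.mem_insert,
      Finset.mem_singleton, Prod.mk.injEq]
    constructor
    · rintro ⟨a, ha⟩
      fin_cases a
      · exfalso
        revert ha
        simp [ed_zero]
      · change s(Sum.inl i', Sum.inr j') = s(Sum.inl i, Sum.inr j) at ha
        simp at ha
        simp [ha]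
      · change s(Sum.inl i', Sum.inr (j' + 1)) = s(Sum.inl i, Sum.inr j) at ha
        simp at ha
        simp [← ha.1, ← ha.2]
      · change s(Sum.inl (i' + 1), Sum.inr j') = s(Sum.inl i, Sum.inr j) at ha
        simp at ha
        simp [← ha.1, ← ha.2]
      · change s(Sum.inl (i' + 1), Sum.inr (j' + 1)) = s(Sum.inl i, Sum.inr j) at ha
        simp at ha
        simp [← ha.1, ← ha.2]
      · exfalso
        revert ha
        simp [ed_five]
    · rintro (⟨rfl, rfl⟩ | ⟨rfl, rfl⟩ | ⟨rfl, rfl⟩ | ⟨rfl, rfl⟩)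
      · exact ⟨1, rfl⟩
      · exact ⟨2, by rw [ed_two, sub_add_cancel]⟩
      · exact ⟨3, by rw [ed_three, sub_add_cancel]⟩
      · exact ⟨4, by rw [ed_four, sub_add_cancel, sub_add_cancel]⟩
  unfold Cplx.deg
  rw [key]
  have h1 := one_ne m h.out
  have h1l := one_ne l hl.out
  have hne : ∀ x : ZMod m, x ≠ x - 1 := by
    intro x hx
    apply h1
    linear_combination hx
  have hnel : ∀ x : ZMod l, x ≠ x - 1 := by
    intro x hx
    apply h1l
    linear_combination hx
  rw [Finset.card_insert_of_notMem, Finset.card_insert_of_notMem, Finset.card_insert_of_notMem,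
    Finset.card_singleton]
  · simp only [Finset.mem_singleton, Prod.mk.injEq]
    rintro ⟨-, h3⟩
    exact hne j h3
  · simp only [Finset.mem_insert, Finset.mem_singleton, Prod.mk.injEq]
    rintro (⟨h3, -⟩ | ⟨h3, -⟩) <;> exact hnel i h3
  · simp only [Finset.mem_insert, Finset.mem_singleton, Prod.mk.injEq]
    rintro (⟨-, h3⟩ | ⟨h3, -⟩ | ⟨h3, -⟩)
    · exact hne j h3
    · exact hnel i h3
    · exact hnel i h3

/-- Every edge of the join lies in one of the two cycles or is mixed. -/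
theorem edge_cases {e : Sym2 (ZMod l ⊕ ZMod m)} (he : e ∈ (join l m).edges) :
    (∃ i, e = s(Sum.inl i, Sum.inl (i + 1))) ∨ (∃ j, e = s(Sum.inr j, Sum.inr (j + 1))) ∨
      ∃ i j, e = s(Sum.inl i, Sum.inr j) := by
  unfold Cplx.edges at he
  rw [Finset.mem_image] at he
  obtain ⟨⟨p, a⟩, -, rfl⟩ := he
  dsimp only
  fin_cases a
  · exact Or.inl ⟨_, rfl⟩
  · exact Or.inr (Or.inr ⟨_, _, rfl⟩)
  · exact Or.inr (Or.inr ⟨_, _, rfl⟩)
  · exact Or.inr (Or.inr ⟨_, _, rfl⟩)
  · exact Or.inr (Or.inr ⟨_, _, rfl⟩)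
  · exact Or.inr (Or.inl ⟨_, rfl⟩)

end Pool.Agent.H4ES.JoinC
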