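import Pool.Agent.H4ES.Two
import Pool.Agent.H4ES.JoinC

/-! The metric on the join of two cycles. -/

namespace Pool.Agent.H4ES

open Real Pool.Agent.H4ES.JoinC

/-- Squared lengths on the join: `s` on the first cycle, `u` on the second, `1` on mixed edges. -/
noncomputable def zj {V W : Type} (s u : ℝ) : Sym2 (V ⊕ W) → ℝ :=
  Sym2.lift ⟨fun x y => match x, y with
    | Sum.inl _, Sum.inl _ => s
    | Sum.inr _, Sum.inr _ => u
    | _, _ => 1, by
      intro x y
      cases x <;> cases y <;> rfl⟩

theorem sq_join (l m : ℕ) [hl : Fact (3 ≤ l)] [h : Fact (3 ≤ m)] (s u : ℝ)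
    (T : ZMod l × ZMod m) (a b : Fin 4) (hab : a ≠ b) :
    (join l m).sq (zj s u) T a b = qj s u a b := by
  revert hab
  fin_cases a <;> fin_cases b <;> intro hab <;> first
    | exact absurd rfl hab
    | rfl

theorem einstein_join (l m : ℕ) [hl : Fact (3 ≤ l)] [h : Fact (3 ≤ m)] {s u c : ℝ}
    (hs : 0 < s) (hu : 0 < u) (hsu : s + u < 4)
    (h1 : (1 - m * a1 s u / (2 * π)) / (2 * √s) = c * s)
    (h2 : (1 - l * a1 u s / (2 * π)) / (2 * √u) = c * u)
    (h3 : (1 - 4 * bm s u / (2 * π)) / 2 = c) : (join l m).IsEinstein (zj s u) := by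
  have hth : ∀ T k, th ((join l m).sq (zj s u) T) k = th (qj s u) k := fun T k =>
    th_congr (fun a b hab => sq_join l m s u T a b hab) k
  refine Cplx.einstein_of (join l m) (zj s u) hs hu hsu
    (fun T a b hab => sq_join l m s u T a b hab) c ?_ ?_
  · intro e he
    rcases edge_cases l m he with ⟨i, rfl⟩ | ⟨j, rfl⟩ | ⟨i, j, rfl⟩
    · exact hs
    · exact hu
    · exact one_pos
  · intro e he
    rcases edge_cases l m he with ⟨i, rfl⟩ | ⟨j, rfl⟩ | ⟨i, j, rfl⟩
    · rw [Cplx.curv_const (join l m) (zj s u) _ (a1 s u), deg_inl]
      · exact h1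
      · intro T k hk
        rw [hth]
        have hk0 : k = 0 := by
          revert hk
          fin_cases k <;> intro hk
          · rfl
          all_goals
            exfalso
            revert hk
            simp [ed_one, ed_two, ed_three, ed_four, ed_five]
        rw [hk0]
        exact th_qj_zero hs hu hsu
    · rw [Cplx.curv_const (join l m) (zj s u) _ (a1 u s), deg_inr]
      · exact h2
      · intro T k hk
        rw [hth]
        have hk5 : k = 5 := by
          revert hk
          fin_cases k <;> intro hk
          rotate_right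
          · rfl
          all_goals
            exfalso
            revert hk
            simp [ed_zero, ed_one, ed_two, ed_three, ed_four]
        rw [hk5]
        exact th_qj_five hs hu hsu
    · rw [Cplx.curv_const (join l m) (zj s u) _ (bm s u), deg_mixed]
      · have hz : zj s u s((Sum.inl i : ZMod l ⊕ ZMod m), Sum.inr j) = 1 := rfl
        rw [hz, Real.sqrt_one, mul_one, mul_one, ← h3]
        norm_num
      · intro T k hk
        rw [hth]
        apply th_qj_mixed hs hu hsu
        · rintro rfl
          revert hk
          simp [ed_zero]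
        · rintro rfl
          revert hk
          simp [ed_five]

end Pool.Agent.H4ES
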