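import Pool.Agent.H4ES.JoinE
import Pool.Agent.H19S1.E2

/-! All joins of two cycles have an Einstein metric. -/

namespace Pool.Agent.H4ES

open Real Pool.Agent.H4ES.JoinC

theorem join_all (l m : ℕ) [hl : Fact (3 ≤ l)] [h : Fact (3 ≤ m)] :
    ∃ s u : ℝ, 0 < s ∧ 0 < u ∧ s + u < 4 ∧ (join l m).IsEinstein (zj s u) := by
  obtain ⟨s, u, c, hs, hu, hsu, h1, h2, h3⟩ := Pool.Agent.H19S1.E2.equations hl.out h.out
  exact ⟨s, u, hs, hu, hsu, einstein_join l m hs hu hsu h1 h2 h3⟩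

end Pool.Agent.H4ES
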