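import Pool.Agent.H4ES.Defs

/-! Regge's formula for the gradient of the total scalar curvature. -/

namespace Pool.Agent.H4ES

open Real

variable {V ι : Type} [DecidableEq V] [Fintype ι] [DecidableEq ι]

namespace Cplx

theorem ed_mem (K : Cplx V ι) (T : ι) (m : Fin 6) : K.ed T m ∈ K.edges :=
  Finset.mem_image.2 ⟨(T, m), Finset.mem_univ _, rfl⟩

theorem totalCurv_eq (K : Cplx V ι) (z : Sym2 V → ℝ) :
    K.totalCurv z = ∑ e ∈ K.edges, √(z e)
      - (∑ T, ∑ m, √(K.sq z T (ei m) (ej m)) * th (K.sq z T) m) / (2 * π) := by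
  unfold totalCurv curv
  have h1 : ∀ e ∈ K.edges, (1 - ∑ T, ∑ m, if K.ed T m = e then th (K.sq z T) m / (2 * π) else 0)
      * √(z e) = √(z e) - ∑ T, ∑ m, if K.ed T m = e then
        √(K.sq z T (ei m) (ej m)) * th (K.sq z T) m / (2 * π) else 0 := by
    intro e _
    rw [sub_mul, one_mul, Finset.sum_mul]
    congr 1
    refine Finset.sum_congr rfl fun T _ => ?_
    rw [Finset.sum_mul]
    refine Finset.sum_congr rfl fun m _ => ?_
    split_ifs with h
    · rw [← h]
      unfold sq ed
      ring
    · simp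
  rw [Finset.sum_congr rfl h1, Finset.sum_sub_distrib]
  congr 1
  rw [Finset.sum_comm, Finset.sum_div]
  refine Finset.sum_congr rfl fun T _ => ?_
  rw [Finset.sum_comm, Finset.sum_div]
  refine Finset.sum_congr rfl fun m _ => ?_
  rw [Finset.sum_ite_eq]
  simp [ed_mem]

theorem hasDeriv_total (K : Cplx V ι) (z : Sym2 V → ℝ) (e : Sym2 V) (he : e ∈ K.edges)
    (hz : 0 < z e)
    (hT : ∀ T, HasDerivAt (fun x => ∑ m, √(K.sq (Function.update z e x) T (ei m) (ej m)) *
        th (K.sq (Function.update z e x) T) m)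
      (∑ m, if K.ed T m = e then th (K.sq z T) m / (2 * √(z e)) else 0) (z e)) :
    HasDerivAt (fun x => K.totalCurv (Function.update z e x))
      (K.curv z e / (2 * √(z e))) (z e) := by
  have h0 : (fun x => K.totalCurv (Function.update z e x)) = fun x =>
      ∑ e' ∈ K.edges, √(Function.update z e x e')
      - (∑ T, ∑ m, √(K.sq (Function.update z e x) T (ei m) (ej m)) *
        th (K.sq (Function.update z e x) T) m) / (2 * π) := by
    funext x
    exact totalCurv_eq K _
  rw [h0]
  have hA : HasDerivAt (fun x => ∑ e' ∈ K.edges, √(Function.update z e x e'))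
      (∑ e' ∈ K.edges, if e' = e then 1 / (2 * √(z e)) else 0) (z e) := by
    refine HasDerivAt.fun_sum fun e' _ => ?_
    by_cases h : e' = e
    · subst h
      simp only [Function.update_self, if_true]
      simpa using Real.hasDerivAt_sqrt hz.ne'
    · simp only [Function.update_of_ne h, if_neg h]
      exact hasDerivAt_const _ _
  have hB : HasDerivAt (fun x => ∑ T, ∑ m, √(K.sq (Function.update z e x) T (ei m) (ej m)) *
        th (K.sq (Function.update z e x) T) m)
      (∑ T, ∑ m, if K.ed T m = e then th (K.sq z T) m / (2 * √(z e)) else 0) (z e) :=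
    HasDerivAt.fun_sum fun T _ => hT T
  have hC := hA.sub (hB.div_const (2 * π))
  rw [Finset.sum_ite_eq' K.edges e, if_pos he] at hC
  refine hC.congr_deriv ?_
  unfold curv
  have h2 : (∑ T, ∑ m, if K.ed T m = e then th (K.sq z T) m / (2 * √(z e)) else 0) / (2 * π)
      = (∑ T, ∑ m, if K.ed T m = e then th (K.sq z T) m / (2 * π) else 0) / (2 * √(z e)) := by
    rw [Finset.sum_div, Finset.sum_div]
    refine Finset.sum_congr rfl fun T _ => ?_
    rw [Finset.sum_div, Finset.sum_div]
    refine Finset.sum_congr rfl fun m _ => ?_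
    split_ifs
    · ring
    · simp
  rw [h2]
  ring

end Cplx

end Pool.Agent.H4ES
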