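import Pool.Agent.H4ES.Two
import Pool.Agent.H19S1.E2

/-! Three-coloured complexes: red, green, blue edges with degrees `a`, `b`, `4`. -/

namespace Pool.Agent.H4ES

open Real

/-- For `a, b ≥ 3` there are `s, u` such that every complex with tetrahedra of type
`(s, u, 1, 1, 1, 1)` and edge degrees `a` (squared length `s`), `b` (squared length `u`) and `4`
(squared length `1`) is Einstein. -/
theorem exists_three {a b : ℕ} (ha : 3 ≤ a) (hb : 3 ≤ b) : ∃ s u : ℝ, 0 < s ∧ 0 < u ∧ s + u < 4 ∧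
    ∀ {V ι : Type} [DecidableEq V] [Fintype ι] [DecidableEq ι] (K : Cplx V ι) (z : Sym2 V → ℝ),
      (∀ T i j, i ≠ j → K.sq z T i j = qj s u i j) →
      (∀ e ∈ K.edges, (z e = s ∧ K.deg e = a ∧ ∀ T k, K.ed T k = e → k = 0) ∨
        (z e = u ∧ K.deg e = b ∧ ∀ T k, K.ed T k = e → k = 5) ∨
        (z e = 1 ∧ K.deg e = 4 ∧ ∀ T k, K.ed T k = e → k ≠ 0 ∧ k ≠ 5)) →
      K.IsEinstein z := by
  obtain ⟨s, u, c, hs, hu, hsu, h1, h2, h3⟩ := Pool.Agent.H19S1.E2.equations hb ha
  refine ⟨s, u, hs, hu, hsu, ?_⟩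
  intro V ι _ _ _ K z hq hc
  have hth : ∀ T k, th (K.sq z T) k = th (qj s u) k := fun T k =>
    th_congr (fun i j hij => hq T i j hij) k
  refine Cplx.einstein_of K z hs hu hsu hq c ?_ ?_
  · intro e he
    rcases hc e he with ⟨h, -⟩ | ⟨h, -⟩ | ⟨h, -⟩
    · rw [h]
      exact hs
    · rw [h]
      exact hu
    · rw [h]
      exact one_pos
  · intro e he
    rcases hc e he with ⟨hz, hd, hk⟩ | ⟨hz, hd, hk⟩ | ⟨hz, hd, hk⟩
    · rw [Cplx.curv_const K z e (a1 s u) (fun T k h => by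
        rw [hth, hk T k h]
        exact th_qj_zero hs hu hsu), hd, hz]
      exact h1
    · rw [Cplx.curv_const K z e (a1 u s) (fun T k h => by
        rw [hth, hk T k h]
        exact th_qj_five hs hu hsu), hd, hz]
      exact h2
    · rw [Cplx.curv_const K z e (bm s u) (fun T k h => by
        rw [hth]
        exact th_qj_mixed hs hu hsu k (hk T k h).1 (hk T k h).2), hd, hz, Real.sqrt_one, mul_one,
        mul_one]
      rw [← h3]
      norm_num
      rfl

end Pool.Agent.H4ES
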