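import Pool.Agent.H4ES.Final

/-! Complexes whose tetrahedra are all of the type (s, u, 1, 1, 1, 1). -/

namespace Pool.Agent.H4ES

open Real Pool.Agent.H23ES

/-- Squared edge lengths: `s` on the edge `01`, `u` on the edge `23`, `1` on the other four. -/
noncomputable def qj (s u : ℝ) : Fin 4 → Fin 4 → ℝ :=
  ![![0, s, 1, 1], ![s, 0, 1, 1], ![1, 1, 0, u], ![1, 1, u, 0]]

theorem ar_qj_pos {s u : ℝ} (hs : 0 < s) (hu : 0 < u) (hsu : s + u < 4) (i j k : Fin 4)
    (h1 : i ≠ j) (h2 : i ≠ k) (h3 : j ≠ k) : 0 < ar (qj s u) i j k := by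
  have hs4 : 0 < s * (4 - s) := mul_pos hs (by linarith)
  have hu4 : 0 < u * (4 - u) := mul_pos hu (by linarith)
  revert h1 h2 h3
  fin_cases i <;> fin_cases j <;> fin_cases k <;> simp [ar, qj] <;> nlinarith

theorem gr_qj_pos {s u : ℝ} (hs : 0 < s) (hu : 0 < u) (hsu : s + u < 4) : 0 < gr (qj s u) := by
  have : gr (qj s u) = 4 * (s * u * (4 - s - u)) := by
    simp [gr, qj]
    ring
  rw [this]
  have : 0 < 4 - s - u := by linarith
  positivity

theorem qj_pos {s u : ℝ} (hs : 0 < s) (hu : 0 < u) (a b : Fin 4) (h : a ≠ b) :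
    0 < qj s u a b := by
  revert h
  fin_cases a <;> fin_cases b <;> simp [qj, hs, hu]

/-- The angle at the edge of squared length `s`. -/
noncomputable def a1 (s u : ℝ) : ℝ := arccos ((4 - s - 2 * u) / (4 - s))

/-- The angle at the mixed edges. -/
noncomputable def bm (s u : ℝ) : ℝ := arccos (√(s * u) / √((4 - s) * (4 - u)))

theorem th_qj_zero {s u : ℝ} (hs : 0 < s) (hu : 0 < u) (hsu : s + u < 4) :
    th (qj s u) 0 = a1 s u := by
  have h4 : 0 < 4 - s := by linarith
  have h : th (qj s u) 0 = arccos ((s * (4 - s - 2 * u)) / √((s * (4 - s)) ^ 2)) := by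
    apply th_of
    · simp [nu, ei, ej, ek, el, qj]
      first
        | (left; ring)
        | ring
    · simp [ar, ei, ej, ek, el, qj]
      ring
  rw [h, Real.sqrt_sq (by positivity), mul_div_mul_left _ _ hs.ne']
  rfl

theorem th_qj_five {s u : ℝ} (hs : 0 < s) (hu : 0 < u) (hsu : s + u < 4) :
    th (qj s u) 5 = a1 u s := by
  have h4 : 0 < 4 - u := by linarith
  have h : th (qj s u) 5 = arccos ((u * (4 - u - 2 * s)) / √((u * (4 - u)) ^ 2)) := by
    apply th_of
    · simp [nu, ei, ej, ek, el, qj]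
      first
        | (left; ring)
        | ring
    · simp [ar, ei, ej, ek, el, qj]
      ring
  rw [h, Real.sqrt_sq (by positivity), mul_div_mul_left _ _ hu.ne']
  rfl

theorem th_qj_mixed {s u : ℝ} (hs : 0 < s) (hu : 0 < u) (hsu : s + u < 4) (m : Fin 6)
    (h0 : m ≠ 0) (h5 : m ≠ 5) : th (qj s u) m = bm s u := by
  have h4 : 0 < 4 - s := by linarith
  have h4' : 0 < 4 - u := by linarith
  have h : th (qj s u) m = arccos ((s * u) / √((s * u) * ((4 - s) * (4 - u)))) := by
    apply th_of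
    · revert h0 h5
      fin_cases m <;> simp [nu, ei, ej, ek, el, qj] <;> ring
    · revert h0 h5
      fin_cases m <;> simp [ar, ei, ej, ek, el, qj] <;> ring
  have hsu0 : 0 < s * u := mul_pos hs hu
  have hsq : 0 < √(s * u) := Real.sqrt_pos.2 hsu0
  rw [h, Real.sqrt_mul hsu0.le]
  unfold bm
  congr 1
  have : s * u = √(s * u) * √(s * u) := (Real.mul_self_sqrt hsu0.le).symm
  nth_rewrite 1 [this]
  rw [mul_div_mul_left _ _ hsq.ne']

theorem pts_qj {s u : ℝ} (hs : 0 < s) (hu : 0 < u) (hsu : s + u < 4) :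
    ∃ p : Fin 4 → EuclideanSpace ℝ (Fin 3), AffineIndependent ℝ p ∧
      ∀ a b, a ≠ b → Dist.dist (p a) (p b) ^ 2 = qj s u a b := by
  obtain ⟨x, hx0, hx⟩ : ∃ x : ℝ, 0 < x ∧ 4 * x ^ 2 = s :=
    ⟨√s / 2, by positivity, by rw [div_pow, Real.sq_sqrt hs.le]; ring⟩
  obtain ⟨y, hy0, hy⟩ : ∃ y : ℝ, 0 < y ∧ 4 * y ^ 2 = u :=
    ⟨√u / 2, by positivity, by rw [div_pow, Real.sq_sqrt hu.le]; ring⟩
  obtain ⟨hgt, hh0, hh⟩ : ∃ h : ℝ, 0 < h ∧ h ^ 2 = 1 - (s + u) / 4 :=
    ⟨√(1 - (s + u) / 4), Real.sqrt_pos.2 (by linarith), Real.sq_sqrt (by linarith)⟩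
  refine ⟨![!₂[x, 0, 0], !₂[-x, 0, 0], !₂[0, y, hgt], !₂[0, -y, hgt]], ?_, ?_⟩
  · rw [affineIndependent_iff_of_fintype]
    intro w hw h
    rw [Finset.weightedVSub_eq_linear_combination _ hw] at h
    have h0 := congrFun (congrArg WithLp.ofLp h) 0
    have h1 := congrFun (congrArg WithLp.ofLp h) 1
    have h2 := congrFun (congrArg WithLp.ofLp h) 2
    simp [Fin.sum_univ_four] at h0 h1 h2 hw
    have e1 : x * (w 0 - w 1) = 0 := by linear_combination h0
    have e2 : y * (w 2 - w 3) = 0 := by linear_combination h1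
    have e3 : hgt * (w 2 + w 3) = 0 := by linear_combination h2
    have f1 := (mul_eq_zero.1 e1).resolve_left hx0.ne'
    have f2 := (mul_eq_zero.1 e2).resolve_left hy0.ne'
    have f3 := (mul_eq_zero.1 e3).resolve_left hh0.ne'
    intro i
    fin_cases i
    · show w 0 = 0
      linarith
    · show w 1 = 0
      linarith
    · show w 2 = 0
      linarith
    · show w 3 = 0
      linarith
  · intro a b hab
    rw [Pool.Agent.H30ES.dist_sq]
    revert hab
    fin_cases a <;> fin_cases b <;> simp [qj] <;> nlinarith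

variable {V ι : Type} [DecidableEq V] [Fintype ι] [DecidableEq ι]

namespace Cplx

theorem curv_const (K : Cplx V ι) (z : Sym2 V → ℝ) (e : Sym2 V) (x : ℝ)
    (h : ∀ T m, K.ed T m = e → th (K.sq z T) m = x) :
    K.curv z e = 1 - K.deg e * x / (2 * π) := by
  unfold curv
  congr 1
  rw [← sum_deg, Finset.sum_mul, Finset.sum_div]
  refine Finset.sum_congr rfl fun T _ => ?_
  rw [Finset.sum_mul, Finset.sum_div]
  refine Finset.sum_congr rfl fun m _ => ?_
  by_cases hm : K.ed T m = e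
  · rw [if_pos hm, if_pos hm, h T m hm, one_mul]
  · rw [if_neg hm, if_neg hm]
    simp

theorem einstein_of (K : Cplx V ι) (z : Sym2 V → ℝ) {s u : ℝ} (hs : 0 < s) (hu : 0 < u)
    (hsu : s + u < 4) (hq : ∀ T a b, a ≠ b → K.sq z T a b = qj s u a b) (c : ℝ)
    (hz : ∀ e ∈ K.edges, 0 < z e)
    (hc : ∀ e ∈ K.edges, K.curv z e / (2 * √(z e)) = c * z e) : K.IsEinstein z := by
  refine ⟨fun T => ?_, c, fun e he => ?_⟩
  · obtain ⟨p, hp1, hp2⟩ := pts_qj hs hu hsu
    exact ⟨p, hp1, fun a b hab => by rw [hp2 a b hab, hq T a b hab]⟩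
  · have h := hasDeriv_total K z e he (hz e he) fun T =>
      tet_deriv K z e T
        (fun b c hbc => by
          rw [hq T b c hbc]
          exact qj_pos hs hu b c hbc)
        (fun i j k h1 h2 h3 => by
          rw [ar_congr (hq T) h1 h2 h3]
          exact ar_qj_pos hs hu hsu i j k h1 h2 h3)
        (by
          rw [gr_congr (hq T)]
          exact gr_qj_pos hs hu hsu)
    exact h.congr_deriv (hc e he)

end Cplx

end Pool.Agent.H4ES
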